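import Pool.Agent.MP_ea150c_mp.H16.FSpec

/-! Row AbsP: the perturbation theorem for the total complex. -/

namespace Pool.Agent.MP_ea150c_mp.H40

open Pool.Agent.MP_ea150c_mp.H49 Pool.Agent.MP_ea150c_mp.H16

noncomputable section

section Gen
variable {O M N : Type} [CommRing O] [AddCommGroup M] [Module O M] [AddCommGroup N] [Module O N]

theorem mem_sm {c : O} {A : Submodule O M} {x : M} : x ∈ sm c A ↔ ∃ y ∈ A, c • y = x := by
  simp [sm]

theorem mem_of_eq {A : Submodule O M} {x y : M} (h : x ∈ A) (e : y = x) : y ∈ A := e ▸ h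

theorem sm_prod (c : O) (A : Submodule O M) (B : Submodule O N) :
    sm c (A.prod B) = (sm c A).prod (sm c B) := by
  ext u
  simp only [Submodule.mem_prod, mem_sm]
  constructor
  · rintro ⟨y, hy, rfl⟩
    exact ⟨⟨y.1, hy.1, rfl⟩, ⟨y.2, hy.2, rfl⟩⟩
  · rintro ⟨⟨a, ha, h1⟩, ⟨b, hb, h2⟩⟩
    exact ⟨(a, b), ⟨ha, hb⟩, Prod.ext h1 h2⟩

theorem sm_bot (c : O) : sm c (⊥ : Submodule O M) = ⊥ := by simp [sm]

theorem sm_top_prod (c : O) :
    sm c (⊤ : Submodule O (M × N)) = (sm c (⊤ : Submodule O M)).prod (sm c ⊤) := by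
  rw [← sm_prod, Submodule.prod_top]

theorem sm_map (c : O) (f : M →ₗ[O] N) {x : M} (h : x ∈ sm c (⊤ : Submodule O M)) :
    f x ∈ sm c (⊤ : Submodule O N) := by
  obtain ⟨y, -, rfl⟩ := mem_sm.1 h
  exact mem_sm.2 ⟨f y, trivial, (map_smul f c y).symm⟩

theorem trace_block [Module.Finite O M] [Module.Free O M] [Module.Finite O N] [Module.Free O N]
    (T : (M × N) →ₗ[O] (M × N)) :
    LinearMap.trace O _ T =
      LinearMap.trace O M (LinearMap.fst O M N ∘ₗ T ∘ₗ LinearMap.inl O M N) +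
      LinearMap.trace O N (LinearMap.snd O M N ∘ₗ T ∘ₗ LinearMap.inr O M N) := by
  have h : T = (T ∘ₗ LinearMap.inl O M N) ∘ₗ LinearMap.fst O M N +
      (T ∘ₗ LinearMap.inr O M N) ∘ₗ LinearMap.snd O M N := by
    refine LinearMap.ext fun u => ?_
    simp only [LinearMap.add_apply, LinearMap.comp_apply, LinearMap.fst_apply,
      LinearMap.snd_apply, LinearMap.inl_apply, LinearMap.inr_apply]
    rw [← map_add]
    simp
  conv_lhs => rw [h]
  rw [map_add, LinearMap.trace_comp_comm' (LinearMap.fst O M N),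
    LinearMap.trace_comp_comm' (LinearMap.snd O M N)]

theorem exists_div [Module.Free O M] (c : O) (f : M →ₗ[O] N)
    (h : ∀ x, f x ∈ sm c (⊤ : Submodule O N)) : ∃ g : M →ₗ[O] N, f = c • g := by
  choose y hy using fun x => mem_sm.1 (h x)
  refine ⟨(Module.Free.chooseBasis O M).constr O fun i => y (Module.Free.chooseBasis O M i), ?_⟩
  refine (Module.Free.chooseBasis O M).ext fun i => ?_
  rw [LinearMap.smul_apply, Module.Basis.constr_basis, (hy _).2]

end Gen

section Tot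
variable {O TB TL TX : Type} [CommRing O] [AddCommGroup TB] [Module O TB]
  [AddCommGroup TL] [Module O TL] [AddCommGroup TX] [Module O TX]
  (C : Cx O TB TL TX) (G : Fr O TB TL TX)

/-- The total differential. -/
def tD : (TB × TL × TX) →ₗ[O] (TB × TL × TX) where
  toFun u := (C.dB u.1 + C.sB (C.bd u.2.1), C.dL u.2.1 + C.sL (C.inc u.2.2), C.dX u.2.2)
  map_add' u v := by
    simp only [Prod.fst_add, Prod.snd_add, map_add, Prod.mk_add_mk, Prod.mk.injEq, and_true]
    constructor <;> abel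
  map_smul' c u := by simp [smul_add]

/-- The total sign. -/
def tE : (TB × TL × TX) →ₗ[O] (TB × TL × TX) where
  toFun u := (C.sB u.1, -C.sL u.2.1, C.sX u.2.2)
  map_add' u v := by
    simp only [Prod.fst_add, Prod.snd_add, map_add, Prod.mk_add_mk, Prod.mk.injEq, and_true,
      true_and]
    abel
  map_smul' c u := by simp

/-- The total operator. -/
def tP : (TB × TL × TX) →ₗ[O] (TB × TL × TX) where
  toFun u := (G.ΦB u.1, G.H u.1 + G.ΦL u.2.1, G.KB u.1 + G.KL u.2.1 + G.ΦX u.2.2)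
  map_add' u v := by
    simp only [Prod.fst_add, Prod.snd_add, map_add, Prod.mk_add_mk, Prod.mk.injEq, true_and]
    constructor <;> abel
  map_smul' c u := by simp [smul_add]

theorem tD_apply (u : TB × TL × TX) : tD C u =
    (C.dB u.1 + C.sB (C.bd u.2.1), C.dL u.2.1 + C.sL (C.inc u.2.2), C.dX u.2.2) := rfl

theorem tE_apply (u : TB × TL × TX) : tE C u = (C.sB u.1, -C.sL u.2.1, C.sX u.2.2) := rfl

theorem tP_apply (u : TB × TL × TX) : tP G u =
    (G.ΦB u.1, G.H u.1 + G.ΦL u.2.1, G.KB u.1 + G.KL u.2.1 + G.ΦX u.2.2) := rfl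

theorem pow1 (k : ℕ) (u : TB × TL × TX) : ((tP G ^ k) u).1 = (G.ΦB ^ k) u.1 := by
  induction k with
  | zero => rfl
  | succ k ih => rw [pow_succ', pow_succ', Module.End.mul_apply, Module.End.mul_apply, tP_apply, ih]

theorem pow2 (k : ℕ) (v : TL × TX) : ((tP G ^ k) (0, v)).2.1 = (G.ΦL ^ k) v.1 := by
  induction k with
  | zero => rfl
  | succ k ih =>
    rw [pow_succ', pow_succ', Module.End.mul_apply, Module.End.mul_apply, tP_apply, ih, pow1]
    simp

theorem pow3 (k : ℕ) (x : TX) : ((tP G ^ k) (0, 0, x)).2.2 = (G.ΦX ^ k) x := by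
  induction k with
  | zero => rfl
  | succ k ih =>
    rw [pow_succ', pow_succ', Module.End.mul_apply, Module.End.mul_apply, tP_apply, ih, pow1, pow2]
    simp

theorem trace_tot [Module.Finite O TB] [Module.Free O TB] [Module.Finite O TL] [Module.Free O TL]
    [Module.Finite O TX] [Module.Free O TX] (k : ℕ) :
    LinearMap.trace O _ (tE C ∘ₗ tP G ^ k) =
      sTr C G k + LinearMap.trace O TX (C.sX ∘ₗ G.ΦX ^ k) := by
  rw [trace_block, trace_block (M := TL) (N := TX), sTr]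
  have h1 : LinearMap.fst O TB (TL × TX) ∘ₗ (tE C ∘ₗ tP G ^ k) ∘ₗ LinearMap.inl O TB (TL × TX) =
      C.sB ∘ₗ G.ΦB ^ k := by
    refine LinearMap.ext fun b => ?_
    simp [tE_apply, pow1]
  have h2 : LinearMap.fst O TL TX ∘ₗ (LinearMap.snd O TB (TL × TX) ∘ₗ (tE C ∘ₗ tP G ^ k) ∘ₗ
      LinearMap.inr O TB (TL × TX)) ∘ₗ LinearMap.inl O TL TX = -(C.sL ∘ₗ G.ΦL ^ k) := by
    refine LinearMap.ext fun b => ?_
    simp [tE_apply, pow2]
  have h3 : LinearMap.snd O TL TX ∘ₗ (LinearMap.snd O TB (TL × TX) ∘ₗ (tE C ∘ₗ tP G ^ k) ∘ₗ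
      LinearMap.inr O TB (TL × TX)) ∘ₗ LinearMap.inr O TL TX = C.sX ∘ₗ G.ΦX ^ k := by
    refine LinearMap.ext fun b => ?_
    simp [tE_apply, pow3]
  rw [h1, h2, h3, map_neg]
  ring

theorem trace_last [Module.Finite O TX] [Module.Free O TX] (π : O) (h : ParH π C G) (k : ℕ) :
    π ^ (2 * k) ∣ LinearMap.trace O TX (C.sX ∘ₗ G.ΦX ^ k) := by
  obtain ⟨g, hg⟩ := exists_div _ _ h.vX
  rw [hg, smul_pow, LinearMap.comp_smul, map_smul, smul_eq_mul, pow_mul]
  exact Dvd.intro _ rfl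

end Tot

theorem absP (hP : PStmt) : AbsP := by
  intro p _ hp TB TL TX _ _ _ _ _ _ _ _ _ _ _ _ C G S hS hD hH hC
  have key := hP p hp (TB × TL × TX) (tE C) (tD C) (tP G) (C.B0.prod ⊥)
    (C.B1.prod (C.L1.prod ⊥)) ((⊤ : Submodule ℤ_[p] TB).prod ((⊤ : Submodule ℤ_[p] TL).prod ⊥))
    ((⊥ : Submodule ℤ_[p] TB).prod ((⊥ : Submodule ℤ_[p] TL).prod ⊤)) S
    (fun x => by simp [tE_apply, hS.ssB, hS.ssL, hS.ssX])
    (fun x => by
      simp only [tE_apply, tD_apply, map_add, map_neg, hS.ssB, hS.ssL, hS.sdB, hS.sdL, hS.sdX,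
        hS.bds, hS.incs, Prod.neg_mk, neg_add, neg_neg])
    (fun x => by
      simp only [tE_apply, tP_apply, map_add, map_neg, hD.sB, hD.sL, hH.sX, hH.sH, hH.sKL,
        hH.sKB, Prod.mk.injEq, and_true, true_and]
      abel)
    (fun x => by
      simp only [tD_apply, map_add, hS.ddB, hS.ddL, hS.ddX, hS.bdd, hS.bds, hS.incd, hS.sdB,
        hS.sdL, hS.bdinc, map_zero, Prod.mk_eq_zero, and_true]
      constructor <;> abel)
    (fun x hx => by
      have h2 : x.2 = 0 := hx.2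
      exact ⟨hS.s0 _ hx.1, by simp [tE_apply, h2]⟩)
    (fun x hx => by
      have h2 : x.2.2 = 0 := hx.2.2
      exact ⟨hS.s1 _ hx.1, C.L1.neg_mem (hS.sL1 _ hx.2.1), by simp [tE_apply, h2]⟩)
    (fun x hx => by
      have h2 : x.2.2 = 0 := hx.2.2
      exact ⟨trivial, trivial, by simp [tE_apply, h2]⟩)
    (fun x hx => by
      have h1 : x.1 = 0 := hx.1
      have h2 : x.2.1 = 0 := hx.2.1
      exact ⟨by simp [tE_apply, h1], by simp [tE_apply, h2], trivial⟩)
    (Submodule.prod_mono hS.le01 bot_le)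
    (Submodule.prod_mono le_top (Submodule.prod_mono le_top le_rfl))
    (by
      constructor
      · rw [disjoint_iff, Submodule.prod_inf_prod, Submodule.prod_inf_prod]
        simp
      · rw [codisjoint_iff, Submodule.prod_sup_prod, Submodule.prod_sup_prod]
        simp)
    (fun x hx => by
      have h2 : (p : ℤ_[p]) • x.2 = 0 := hx.2
      exact ⟨hS.sat0 _ hx.1, Prod.ext (hS.tfL _ (congrArg Prod.fst h2))
        (hS.tfX _ (congrArg Prod.snd h2))⟩)
    (fun x hx => ⟨hS.sat1 _ hx.1, hS.satL _ hx.2.1, hS.tfX _ hx.2.2⟩)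
    (fun x hx => by
      have h2 : x.2 = 0 := hx.2
      refine ⟨?_, by simp [tD_apply, h2]⟩
      simpa [tD_apply, h2] using hS.d0 _ hx.1)
    (fun x hx => by
      have h2 : x.2.2 = 0 := hx.2.2
      refine ⟨C.B1.add_mem (hS.d1 _ hx.1) (hS.s1 _ (hS.bd1 _ hx.2.1)), ?_, by simp [tD_apply, h2]⟩
      simpa [tD_apply, h2] using hS.dL1 _ hx.2.1)
    (fun x => by
      rw [sm_prod, sm_top_prod, Submodule.prod_sup_prod, Submodule.prod_sup_prod, bot_sup_eq,
        sm_prod, sm_top_prod, Submodule.prod_sup_prod, sm_bot, bot_sup_eq]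
      exact ⟨hD.vB _, Submodule.add_mem _ (hH.vH _) (hD.vL _),
        Submodule.add_mem _ (Submodule.add_mem _ (hH.vKB _) (hH.vKL _)) (hH.vX _)⟩)
    (fun x hx => by
      have h1 : x.1 = 0 := hx.1
      have h2 : x.2.1 = 0 := hx.2.1
      exact ⟨by simp [tP_apply, h1], by simp [tP_apply, h1, h2], trivial⟩)
    (fun x => by
      rw [sm_top_prod, Submodule.prod_sup_prod, bot_sup_eq, sm_top_prod, Submodule.prod_sup_prod,
        bot_sup_eq, top_sup_eq]
      refine ⟨?_, ?_, trivial⟩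
      · have := Submodule.add_mem _ (hC.c1 x.1) (sm_map _ C.sB (hC.c2 x.2.1))
        refine mem_of_eq this ?_
        simp only [tD_apply, tP_apply, map_add, map_sub, hD.sB, Prod.fst_sub]
        abel
      · have := Submodule.add_mem _ (Submodule.add_mem _ (hC.c5 x.1) (hC.c4 x.2.1))
          (sm_map _ C.sL (hC.c3 x.2.2))
        refine mem_of_eq this ?_
        simp only [tD_apply, tP_apply, map_add, map_sub, hD.sL, Prod.fst_sub, Prod.snd_sub]
        abel)
  have h0 : ∀ e, H0T (p : ℤ_[p]) C e → ∀ x ∈ (C.B0.prod ⊥ : Submodule ℤ_[p] (TB × TL × TX)),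
      tD C x ∈ sm (p : ℤ_[p]) (C.B0.prod ⊥ : Submodule ℤ_[p] (TB × TL × TX)) →
      ∃ c : ℤ_[p], ∃ z ∈ (C.B0.prod ⊥ : Submodule ℤ_[p] (TB × TL × TX)),
        x - c • ((e, 0) : TB × TL × TX) - tD C z ∈
          sm (p : ℤ_[p]) (C.B0.prod ⊥ : Submodule ℤ_[p] (TB × TL × TX)) := by
    intro e he x hx hd
    have h2 : x.2 = 0 := hx.2
    rw [sm_prod] at hd ⊢
    obtain ⟨c, z, hz, h⟩ := he.2.2 x.1 hx.1 (by simpa [tD_apply, h2] using hd.1)
    refine ⟨c, (z, 0), ⟨hz, rfl⟩, ?_, ?_⟩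
    · simpa [tD_apply] using h
    · simp [tD_apply, h2, sm_bot]
  refine ⟨fun h k hk => ?_, fun e he h1 hu h2S d hd hr => ?_⟩
  · have := key.1 (fun x hx hd => by
      obtain ⟨c, z, hz, h⟩ := h0 0 h x hx hd
      exact ⟨z, hz, by rwa [Prod.mk_zero_zero, smul_zero, sub_zero] at h⟩) k hk
    rw [trace_tot] at this
    exact (dvd_add_left ((pow_dvd_pow _ (by omega)).trans (trace_last C G _ hH k))).1 this
  · obtain ⟨u, Λ, h⟩ := key.2 (e, 0) ⟨he.1, rfl⟩ (by simp [tE_apply, he.2.1]) (h0 e he)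
      (fun x hx hε hd => by
        have h2 : x.2.2 = 0 := hx.2.2
        rw [sm_prod, sm_prod] at hd
        have e1 : C.sB x.1 = x.1 := congrArg Prod.fst hε
        have e2 : -C.sL x.2.1 = x.2.1 := congrArg (fun u => u.2.1) hε
        obtain ⟨β, hβ, ζ, hζ, g1, g2⟩ := h1 x.1 hx.1 x.2.1 hx.2.1 e1 (neg_eq_iff_eq_neg.1 e2)
          hd.1 (by simpa [tD_apply, h2] using hd.2.1)
        refine ⟨(β, ζ, 0), ⟨hβ, hζ, rfl⟩, ?_⟩
        rw [sm_top_prod, Submodule.prod_sup_prod, bot_sup_eq, sm_top_prod]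
        refine ⟨g1, ?_, ?_⟩
        · simpa [tD_apply, tP_apply] using g2
        · simpa [tD_apply, tP_apply] using
            Submodule.add_mem _ (Submodule.add_mem _ (hH.vKB x.1) (hH.vKL x.2.1)) (hH.vX x.2.2))
      (by
        have e1 := trace_tot C G 1
        rw [pow_one] at e1
        have e2 : sTr C G 1 = LinearMap.trace ℤ_[p] _ (tE C ∘ₗ tP G) +
            -LinearMap.trace ℤ_[p] TX (C.sX ∘ₗ G.ΦX ^ 1) := by rw [e1]; ring
        rw [e2] at hu
        rcases IsLocalRing.isUnit_or_isUnit_of_isUnit_add hu with h | h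
        · exact h
        · exact absurd (isUnit_of_dvd_unit ((dvd_pow_self _ (by norm_num)).trans
            (trace_last C G _ hH 1)) ((IsUnit.neg_iff _).1 h)) PadicInt.irreducible_p.not_isUnit)
      h2S d hd
      (by
        refine le_trans ?_ hr
        rw [← Module.finrank_prod]
        let f : (C.B1.prod (C.L1.prod ⊥) : Submodule ℤ_[p] (TB × TL × TX)) →ₗ[ℤ_[p]]
            C.B1 × C.L1 :=
          { toFun := fun x => (⟨x.1.1, x.2.1⟩, ⟨x.1.2.1, x.2.2.1⟩)
            map_add' := fun _ _ => rfl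
            map_smul' := fun _ _ => rfl }
        refine LinearMap.finrank_le_finrank_of_injective (f := f) fun x y hxy => ?_
        have e1 : x.1.1 = y.1.1 := congrArg (fun u => u.1.1) hxy
        have e2 : x.1.2.1 = y.1.2.1 := congrArg (fun u => u.2.1) hxy
        have e3 : x.1.2.2 = 0 := x.2.2.2
        have e4 : y.1.2.2 = 0 := y.2.2.2
        exact Subtype.ext (Prod.ext e1 (Prod.ext e2 (e3.trans e4.symm))))
    refine ⟨u, Λ, fun k hk => ?_⟩
    have := h k hk
    rw [trace_tot, add_sub_right_comm] at this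
    have hle : k / (d + 1) ≤ k := Nat.div_le_self _ _
    exact (dvd_add_left ((pow_dvd_pow _ (by omega)).trans (trace_last C G _ hH k))).1 this

end

end Pool.Agent.MP_ea150c_mp.H40
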